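import Mathlib

set_option autoImplicit false

namespace Pool.Agent.Results.MP_4a7d17_lc.Complete

/-- The modalities: preference, epistemic indistinguishability, action freedom. -/
inductive Md (N : Type)
  | le (i : N)
  | sim (i : N)
  | fr (i : N)

inductive Fm (N : Type)
  | atom (p : ℕ)
  | neg (φ : Fm N)
  | or (φ ψ : Fm N)
  | dia (m : Md N) (φ : Fm N)

variable {N : Type}

def Fm.imp (φ ψ : Fm N) : Fm N := .or (.neg φ) ψ

/-- General game models for the players `N`. -/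
structure GM (N : Type) where
  A : N → Type
  ne : ∀ i, Nonempty (A i)
  le : N → (∀ i, A i) → (∀ i, A i) → Prop
  le_refl : ∀ i σ, le i σ σ
  le_trans : ∀ i σ τ ρ, le i σ τ → le i τ ρ → le i σ ρ
  V : ℕ → Set (∀ i, A i)
  W : Set (∀ i, A i)
  W_ne : W.Nonempty

def GM.rel (G : GM N) : Md N → (∀ i, G.A i) → (∀ i, G.A i) → Prop
  | .le i, σ, τ => G.le i σ τ
  | .sim i, σ, τ => σ i = τ i
  | .fr i, σ, τ => ∀ j, j ≠ i → σ j = τ j

def GM.sat (G : GM N) : (∀ i, G.A i) → Fm N → Prop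
  | σ, .atom p => σ ∈ G.V p
  | σ, .neg φ => ¬ G.sat σ φ
  | σ, .or φ ψ => G.sat σ φ ∨ G.sat σ ψ
  | σ, .dia m φ => ∃ τ ∈ G.W, G.rel m σ τ ∧ G.sat τ φ

def Valid (φ : Fm N) : Prop := ∀ G : GM N, ∀ σ ∈ G.W, G.sat σ φ

/-- Truth-table value, with letters and diamond formulas as atoms. -/
def bv (v : Fm N → Prop) : Fm N → Prop
  | .neg φ => ¬ bv v φ
  | .or φ ψ => bv v φ ∨ bv v ψ
  | φ => v φ

/-- The proof system. -/
inductive Prov : Fm N → Prop
  | taut (φ : Fm N) : (∀ v, bv v φ) → Prov φ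
  | mp (φ ψ : Fm N) : Prov (φ.imp ψ) → Prov φ → Prov ψ
  | mono (m : Md N) (φ ψ : Fm N) : Prov (φ.imp ψ) → Prov ((Fm.dia m φ).imp (.dia m ψ))
  | nec (m : Md N) (φ : Fm N) : Prov (.neg φ) → Prov (.neg (.dia m φ))
  | add (m : Md N) (φ ψ : Fm N) : Prov ((Fm.dia m (.or φ ψ)).imp (.or (.dia m φ) (.dia m ψ)))
  | axT (m : Md N) (φ : Fm N) : Prov (φ.imp (.dia m φ))
  | ax4 (m : Md N) (φ : Fm N) : Prov ((Fm.dia m (.dia m φ)).imp (.dia m φ))
  | simB (i : N) (φ : Fm N) : Prov (φ.imp (.neg (.dia (.sim i) (.neg (.dia (.sim i) φ)))))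
  | frB (i : N) (φ : Fm N) : Prov (φ.imp (.neg (.dia (.fr i) (.neg (.dia (.fr i) φ)))))
  | inc (i j : N) (φ : Fm N) : j ≠ i → Prov ((Fm.dia (.fr i) φ).imp (.dia (.sim j) φ))
  | two (i j : N) (φ : Fm N) : (∀ k, k ≠ i → k = j) →
      Prov ((Fm.dia (.sim j) φ).imp (.dia (.fr i) φ))

/-! ### Soundness -/

lemma sat_imp (G : GM N) (σ : ∀ i, G.A i) (φ ψ : Fm N) :
    G.sat σ (φ.imp ψ) ↔ (G.sat σ φ → G.sat σ ψ) := by
  simp only [Fm.imp, GM.sat]
  tauto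

lemma bv_sat (G : GM N) (σ : ∀ i, G.A i) (φ : Fm N) : bv (G.sat σ) φ ↔ G.sat σ φ := by
  induction φ with
  | atom p => rfl
  | neg φ ih => exact not_congr ih
  | or φ ψ ih1 ih2 => exact or_congr ih1 ih2
  | dia m φ _ => rfl

lemma rel_refl (G : GM N) (m : Md N) (σ : ∀ i, G.A i) : G.rel m σ σ := by
  cases m with
  | le i => exact G.le_refl i σ
  | sim i => rfl
  | fr i => exact fun _ _ => rfl

lemma rel_trans (G : GM N) (m : Md N) {σ τ ρ : ∀ i, G.A i} (h : G.rel m σ τ) (h' : G.rel m τ ρ) :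
    G.rel m σ ρ := by
  cases m with
  | le i => exact G.le_trans i _ _ _ h h'
  | sim i => exact Eq.trans h h'
  | fr i => exact fun j hj => (h j hj).trans (h' j hj)

theorem sound {φ : Fm N} (h : Prov φ) : Valid φ := by
  induction h with
  | taut φ h => exact fun G σ _ => (bv_sat G σ φ).1 (h _)
  | mp φ ψ _ _ h1 h2 => exact fun G σ hσ => (sat_imp G σ _ _).1 (h1 G σ hσ) (h2 G σ hσ)
  | mono m φ ψ _ h =>
    intro G σ _
    rw [sat_imp]
    rintro ⟨τ, h1, h2, h3⟩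
    exact ⟨τ, h1, h2, (sat_imp G τ _ _).1 (h G τ h1) h3⟩
  | nec m φ _ h =>
    rintro G σ _ ⟨τ, h1, -, h3⟩
    exact h G τ h1 h3
  | add m φ ψ =>
    intro G σ _
    rw [sat_imp]
    rintro ⟨τ, h1, h2, h3 | h3⟩
    · exact Or.inl ⟨τ, h1, h2, h3⟩
    · exact Or.inr ⟨τ, h1, h2, h3⟩
  | axT m φ =>
    intro G σ hσ
    rw [sat_imp]
    exact fun h => ⟨σ, hσ, rel_refl G m σ, h⟩
  | ax4 m φ =>
    intro G σ _
    rw [sat_imp]
    rintro ⟨τ, -, h2, ρ, h3, h4, h5⟩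
    exact ⟨ρ, h3, rel_trans G m h2 h4, h5⟩
  | simB i φ =>
    intro G σ hσ
    rw [sat_imp]
    rintro h ⟨τ, -, h2, h3⟩
    exact h3 ⟨σ, hσ, Eq.symm h2, h⟩
  | frB i φ =>
    intro G σ hσ
    rw [sat_imp]
    rintro h ⟨τ, -, h2, h3⟩
    exact h3 ⟨σ, hσ, fun j hj => (h2 j hj).symm, h⟩
  | inc i j φ hj =>
    intro G σ _
    rw [sat_imp]
    rintro ⟨τ, h1, h2, h3⟩
    exact ⟨τ, h1, h2 j hj, h3⟩
  | two i j φ hj =>
    intro G σ _
    rw [sat_imp]
    rintro ⟨τ, h1, h2, h3⟩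
    refine ⟨τ, h1, fun k hk => ?_, h3⟩
    obtain rfl := hj k hk
    exact h2

/-! ### Maximal theories -/

def Thy (T : Set (Fm N)) : Prop :=
  (∀ φ, Prov φ → φ ∈ T) ∧ ∀ φ ψ, φ.imp ψ ∈ T → φ ∈ T → ψ ∈ T

def Mx (T : Set (Fm N)) : Prop := Thy T ∧ ∀ φ, Fm.neg φ ∈ T ↔ φ ∉ T

lemma Thy.t1 {T : Set (Fm N)} (h : Thy T) {φ ψ : Fm N} (h1 : φ ∈ T)
    (ht : ∀ v, bv v φ → bv v ψ) : ψ ∈ T :=
  h.2 _ _ (h.1 _ (.taut _ fun v => by have := ht v; simp only [Fm.imp, bv]; tauto)) h1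

lemma Thy.t2 {T : Set (Fm N)} (h : Thy T) {φ ψ χ : Fm N} (h1 : φ ∈ T) (h2 : ψ ∈ T)
    (ht : ∀ v, bv v φ → bv v ψ → bv v χ) : χ ∈ T :=
  h.2 _ _ (h.t1 h1 fun v => by have := ht v; simp only [Fm.imp, bv]; tauto) h2

lemma lind {T : Set (Fm N)} (h : Thy T) {χ : Fm N} (hχ : χ ∉ T) :
    ∃ Γ, Mx Γ ∧ T ⊆ Γ ∧ χ ∉ Γ := by
  obtain ⟨Γ, h1, h2⟩ := zorn_subset_nonempty {Γ : Set (Fm N) | Thy Γ ∧ χ ∉ Γ} (by
    intro c hc hch ⟨x, hx⟩
    refine ⟨⋃₀ c, ⟨⟨fun φ hφ => ⟨x, hx, (hc hx).1.1 φ hφ⟩, ?_⟩, ?_⟩,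
      fun s hs => Set.subset_sUnion_of_mem hs⟩
    · rintro φ ψ ⟨s, hs, h1⟩ ⟨t, ht, h2⟩
      rcases hch.total hs ht with h | h
      · exact ⟨t, ht, (hc ht).1.2 _ _ (h h1) h2⟩
      · exact ⟨s, hs, (hc hs).1.2 _ _ h1 (h h2)⟩
    · rintro ⟨s, hs, h1⟩
      exact (hc hs).2 h1) T ⟨h, hχ⟩
  obtain ⟨hT, hn⟩ := h2.prop
  have key : ∀ φ, φ ∉ Γ → φ.imp χ ∈ Γ := by
    intro φ hφ
    by_contra hc
    have hs : Γ ⊆ {ψ | φ.imp ψ ∈ Γ} := fun ψ hψ =>
      hT.t1 hψ fun v => by simp only [Fm.imp, bv]; tauto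
    have : Thy {ψ | φ.imp ψ ∈ Γ} := ⟨fun ψ hψ => hs (hT.1 ψ hψ), fun ψ ρ a b =>
      hT.t2 a b fun v => by simp only [Fm.imp, bv]; tauto⟩
    refine hφ (h2.le_of_ge ⟨this, hc⟩ hs ?_)
    exact hT.1 _ (.taut _ fun v => by simp only [Fm.imp, bv]; tauto)
  refine ⟨Γ, ⟨hT, fun φ => ⟨fun a b => hn (hT.t2 a b fun v => by simp only [bv]; tauto),
    fun a => by_contra fun b => hn (hT.t2 (key _ a) (key _ b) fun v => ?_)⟩⟩, h1, hn⟩
  simp only [Fm.imp, bv]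
  tauto

lemma Mx.or {Γ : Set (Fm N)} (h : Mx Γ) (φ ψ : Fm N) : Fm.or φ ψ ∈ Γ ↔ φ ∈ Γ ∨ ψ ∈ Γ := by
  constructor
  · intro a
    by_contra hc
    rw [not_or] at hc
    exact hc.2 (h.1.t2 a ((h.2 _).2 hc.1) fun v => by simp only [bv]; tauto)
  · rintro (a | a)
    · exact h.1.t1 a fun v => Or.inl
    · exact h.1.t1 a fun v => Or.inr

lemma Mx.pr {Γ : Set (Fm N)} (h : Mx Γ) {φ ψ : Fm N} (p : Prov (φ.imp ψ)) (a : φ ∈ Γ) : ψ ∈ Γ :=
  h.1.2 _ _ (h.1.1 _ p) a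

lemma Mx.mono {Γ : Set (Fm N)} (h : Mx Γ) {m : Md N} {φ ψ : Fm N} (a : Fm.dia m φ ∈ Γ)
    (ht : ∀ v, bv v φ → bv v ψ) : Fm.dia m ψ ∈ Γ :=
  h.pr (.mono m _ _ (.taut _ fun v => by have := ht v; simp only [Fm.imp, bv]; tauto)) a

abbrev CW (N : Type) := {Γ : Set (Fm N) // Mx Γ}

def CR (m : Md N) (Γ Δ : CW N) : Prop := ∀ φ ∈ Δ.1, Fm.dia m φ ∈ Γ.1

lemma exi (m : Md N) (Γ : CW N) (φ : Fm N) (h : Fm.dia m φ ∈ Γ.1) : ∃ Δ, CR m Γ Δ ∧ φ ∈ Δ.1 := by
  have hT : Thy {ψ | Fm.dia m (.neg ψ) ∉ Γ.1} := by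
    constructor
    · intro ψ hψ
      refine (Γ.2.2 _).1 (Γ.2.1.1 _ (.nec m _ (.mp ψ _ (.taut _ fun v => ?_) hψ)))
      simp only [Fm.imp, bv]
      tauto
    · intro ψ ρ a b c
      have : Fm.dia m (.or (.neg (ψ.imp ρ)) (.neg ψ)) ∈ Γ.1 :=
        Γ.2.mono c fun v => by simp only [Fm.imp, bv]; tauto
      exact ((Γ.2.or _ _).1 (Γ.2.pr (.add m _ _) this)).elim a b
  obtain ⟨Δ, h1, h2, h3⟩ := lind hT (χ := .neg φ)
    fun a => a (Γ.2.mono h fun v => by simp only [bv]; tauto)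
  refine ⟨⟨Δ, h1⟩, fun ψ hψ => by_contra fun a => ?_, by_contra fun a => h3 ((h1.2 _).2 a)⟩
  refine (h1.2 _).1 (h2 fun b => a ?_) hψ
  exact Γ.2.mono b fun v => by simp only [bv]; tauto

lemma CR.refl (m : Md N) (Γ : CW N) : CR m Γ Γ := fun φ h => Γ.2.pr (.axT m φ) h

lemma CR.trans {m : Md N} {Γ Δ Θ : CW N} (h : CR m Γ Δ) (h' : CR m Δ Θ) : CR m Γ Θ :=
  fun φ a => Γ.2.pr (.ax4 m φ) (h _ (h' _ a))

lemma CR.symm {m : Md N} (hB : ∀ φ : Fm N, Prov (φ.imp (.neg (.dia m (.neg (.dia m φ))))))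
    {Γ Δ : CW N} (h : CR m Γ Δ) : CR m Δ Γ := fun φ a => by_contra fun b =>
  (Γ.2.2 _).1 (Γ.2.pr (hB φ) a) (h _ ((Δ.2.2 _).2 b))

/-! ### Unravelling -/

abbrev Pth (N : Type) := List (Md N × CW N)

def lst (r : CW N) : Pth N → CW N
  | [] => r
  | x :: _ => x.2

def ok (r : CW N) : Pth N → Prop
  | [] => True
  | x :: p => ok r p ∧ CR x.1 (lst r p) x.2

open Classical in
noncomputable def up (P : Md N → Prop) : Pth N → Pth N
  | [] => []
  | x :: p => if P x.1 then up P p else x :: p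

def L (j : N) : Md N → Prop
  | .le _ => False
  | .sim i => i = j
  | .fr i => i ≠ j

lemma up_suf (P : Md N → Prop) (p : Pth N) : up P p <:+ p := by
  induction p with
  | nil => exact List.suffix_refl _
  | cons x p ih =>
    simp only [up]
    split_ifs
    · exact ih.trans (List.suffix_cons _ _)
    · exact List.suffix_refl _

lemma up_up {P Q : Md N → Prop} (h : ∀ l, P l → Q l) (p : Pth N) : up Q (up P p) = up Q p := by
  induction p with
  | nil => rfl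
  | cons x p ih =>
    by_cases hx : P x.1
    · simp only [up, if_pos hx, if_pos (h _ hx), ih]
    · simp only [up, if_neg hx]

lemma up_head (P : Md N → Prop) (p : Pth N) : up P p = [] ∨ ∃ x t, up P p = x :: t ∧ ¬ P x.1 := by
  induction p with
  | nil => exact Or.inl rfl
  | cons x p ih =>
    by_cases hx : P x.1
    · simpa only [up, if_pos hx] using ih
    · exact Or.inr ⟨x, p, by simp only [up, if_neg hx], hx⟩

lemma up_eq {S : N → Prop} {p q : Pth N} (h : ∀ j, S j → up (L j) p = up (L j) q) :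
    up (fun l => ∀ j, S j → L j l) p = up (fun l => ∀ j, S j → L j l) q := by
  have key : ∀ p q : Pth N, (∀ j, S j → up (L j) p = up (L j) q) →
      up (fun l => ∀ j, S j → L j l) p <:+ up (fun l => ∀ j, S j → L j l) q := by
    intro p q h
    rcases up_head (fun l => ∀ j, S j → L j l) p with e | ⟨x, t, e, hx⟩
    · rw [e]
      exact List.nil_suffix
    · push Not at hx
      obtain ⟨j, hj, hx⟩ := hx
      have e1 := up_up (P := fun l => ∀ j, S j → L j l) (Q := L j) (fun l a => a j hj) p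
      have e2 := up_up (P := fun l => ∀ j, S j → L j l) (Q := L j) (fun l a => a j hj) q
      rw [e] at e1 ⊢
      simp only [up, if_neg hx] at e1
      rw [e1, h j hj, ← e2]
      exact up_suf _ _
  exact (key p q h).eq_of_length
    (le_antisymm (key p q h).length_le (key q p fun j hj => (h j hj).symm).length_le)

lemma up_rel {P : Md N → Prop} {m : Md N} (h : ∀ l, P l → ∀ Γ Δ, CR l Γ Δ → CR m Γ Δ) (r : CW N)
    (p : Pth N) (hp : ok r p) : CR m (lst r (up P p)) (lst r p) := by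
  induction p with
  | nil => exact CR.refl _ _
  | cons x p ih =>
    by_cases hx : P x.1
    · simp only [up, if_pos hx]
      exact (ih hp.1).trans (h _ hx _ _ hp.2)
    · simp only [up, if_neg hx]
      exact CR.refl _ _

noncomputable def prof (p : Pth N) : N → Pth N := fun j => up (L j) p

variable [Nontrivial N]

lemma prof_inj {p q : Pth N} (h : prof p = prof q) : p = q := by
  have := up_eq (S := fun _ => True) (p := p) (q := q) fun j _ => congrFun h j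
  have e : ∀ p : Pth N, up (fun l => ∀ j : N, True → L j l) p = p := by
    rintro (_ | ⟨⟨l, w⟩, p⟩)
    · rfl
    · refine if_neg fun a => ?_
      cases l with
      | le i => exact a i trivial
      | sim i =>
        obtain ⟨j, hj⟩ := exists_ne i
        exact hj (Eq.symm (a j trivial))
      | fr i => exact a i trivial rfl
  rwa [e, e] at this

def cg (r : CW N) : GM N where
  A _ := Pth N
  ne _ := ⟨[]⟩
  le i σ τ := σ = τ ∨ ∃ p q, σ = prof p ∧ τ = prof q ∧ CR (.le i) (lst r p) (lst r q)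
  le_refl _ _ := Or.inl rfl
  le_trans := by
    rintro i σ τ ρ (rfl | ⟨p, q, rfl, rfl, h⟩) h'
    · exact h'
    · rcases h' with rfl | ⟨q', s, e, rfl, h'⟩
      · exact Or.inr ⟨p, q, rfl, rfl, h⟩
      · obtain rfl := prof_inj e
        exact Or.inr ⟨p, s, rfl, rfl, h.trans h'⟩
  V a := {σ | ∃ p, σ = prof p ∧ Fm.atom a ∈ (lst r p).1}
  W := {σ | ∃ p, ok r p ∧ σ = prof p}
  W_ne := ⟨_, [], trivial, rfl⟩

lemma zig (r : CW N) (m : Md N) {p q : Pth N} (hp : ok r p) (hq : ok r q)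
    (h : (cg r).rel m (prof p) (prof q)) : CR m (lst r p) (lst r q) := by
  cases m with
  | le i =>
    rcases h with e | ⟨p', q', e1, e2, h⟩
    · obtain rfl := prof_inj e
      exact CR.refl _ _
    · obtain rfl := prof_inj e1
      obtain rfl := prof_inj e2
      exact h
  | sim i =>
    have hL : ∀ l, L i l → ∀ Γ Δ : CW N, CR l Γ Δ → CR (.sim i) Γ Δ := by
      rintro (k | k | k) hl Γ Δ a
      · exact hl.elim
      · obtain rfl : k = i := hl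
        exact a
      · exact fun φ b => Γ.2.pr (.inc k i φ (Ne.symm hl)) (a φ b)
    have e : up (L i) p = up (L i) q := h
    exact (CR.symm (Prov.simB i) (up_rel hL r p hp)).trans (e ▸ up_rel hL r q hq)
  | fr i =>
    have hL : ∀ l, (∀ j, j ≠ i → L j l) → ∀ Γ Δ : CW N, CR l Γ Δ → CR (.fr i) Γ Δ := by
      rintro (k | k | k) hl Γ Δ a
      · obtain ⟨j, hj⟩ := exists_ne i
        exact (hl j hj).elim
      · exact fun φ b => Γ.2.pr (.two i k φ fun j hj => Eq.symm (hl j hj)) (a φ b)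
      · obtain rfl : k = i := by_contra fun hk => hl k hk rfl
        exact a
    have e := up_eq (S := fun j => j ≠ i) (p := p) (q := q) h
    exact (CR.symm (Prov.frB i) (up_rel hL r p hp)).trans (e ▸ up_rel hL r q hq)

lemma zag (r : CW N) (m : Md N) (p : Pth N) (Δ : CW N) (h : CR m (lst r p) Δ) :
    (cg r).rel m (prof p) (prof ((m, Δ) :: p)) := by
  cases m with
  | le i => exact Or.inr ⟨p, _, rfl, rfl, h⟩
  | sim i => exact (if_pos rfl).symm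
  | fr i => exact fun j hj => (if_pos (Ne.symm hj)).symm

lemma truth (r : CW N) (φ : Fm N) : ∀ p, ok r p → ((cg r).sat (prof p) φ ↔ φ ∈ (lst r p).1) := by
  induction φ with
  | atom a =>
    refine fun p _ => ⟨?_, fun h => ⟨p, rfl, h⟩⟩
    rintro ⟨q, e, h⟩
    obtain rfl := prof_inj e
    exact h
  | neg φ ih => exact fun p hp => (not_congr (ih p hp)).trans ((lst r p).2.2 φ).symm
  | or φ ψ ih1 ih2 =>
    exact fun p hp => (or_congr (ih1 p hp) (ih2 p hp)).trans ((lst r p).2.or φ ψ).symm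
  | dia m φ ih =>
    intro p hp
    constructor
    · rintro ⟨_, ⟨q, hq, rfl⟩, h1, h2⟩
      exact zig r m hp hq h1 φ ((ih q hq).1 h2)
    · intro h
      obtain ⟨Δ, h1, h2⟩ := exi m _ φ h
      exact ⟨_, ⟨(m, Δ) :: p, ⟨hp, h1⟩, rfl⟩, zag r m p Δ h1, (ih ((m, Δ) :: p) ⟨hp, h1⟩).2 h2⟩

theorem result (N : Type) [Finite N] [Nontrivial N] (φ : Fm N) : Valid φ ↔ Prov φ := by
  refine ⟨fun h => by_contra fun hn => ?_, sound⟩
  obtain ⟨Γ, h1, -, h3⟩ := lind (T := {ψ | Prov ψ}) ⟨fun _ a => a, fun _ _ a b => .mp _ _ a b⟩ hn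
  exact h3 ((truth ⟨Γ, h1⟩ φ [] trivial).1 (h (cg ⟨Γ, h1⟩) _ ⟨[], trivial, rfl⟩))

end Pool.Agent.Results.MP_4a7d17_lc.Complete
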